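import Pool.Agent.Helper19.TGX.Goals
import Pool.Agent.Helper66.TG.EMB
import Pool.Agent.Helper45.TG.IPN
import Pool.Agent.Helper35.TG.RGEN

/-!
# Project TGX (MP_a41896_nt), packet GMX: a point over `k(P)` is the value of a natural map
-/

set_option autoImplicit false

open Polynomial

namespace Pool.Agent.Helper33.TGX.GMX

open WeierstrassCurve
open Pool.Agent.Helper29.BL Pool.Agent.Helper42.SG
open Pool.Agent.Helper60.T3 (WL IP)
open Pool.Agent.Helper92.TG (mp)
open Pool.Agent.Helper35.TG.RGEN (xc_mp ps_mp alg_mono bp_aeval ps_sq)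

noncomputable section

/-- a subfield which contains the generators is everything -/
theorem all_mem {k F : Type} [Field k] [Field F] [Algebra k F] {s : Set F}
    {G : IntermediateField k F} (hG : G = IntermediateField.adjoin k s)
    (S : IntermediateField k G) (h : ∀ g : G, (g : F) ∈ s → g ∈ S) (g : G) : g ∈ S := by
  have h1 : G ≤ S.map G.val := by
    conv_lhs => rw [hG]
    rw [IntermediateField.adjoin_le_iff]
    intro x hx
    have hxG : x ∈ G := by
      rw [hG]
      exact IntermediateField.subset_adjoin k s hx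
    exact ⟨⟨x, hxG⟩, h ⟨x, hxG⟩ hx, rfl⟩
  obtain ⟨y, hy, hyg⟩ := h1 g.2
  have h2 : y = g := Subtype.ext hyg
  rwa [← h2]

/-- the elements of the algebraic closure of `k(x, ψ)` are algebraic over `k(x)` -/
theorem alg_adj {k F : Type} [Field k] [Field F] [Algebra k F] {x ψ : F}
    (G : IntermediateField k F) (hG : G = IntermediateField.adjoin k {x, ψ})
    {β : k[X]} (hψ : ψ ^ 2 = aeval x β) (xg : G) (hxg : (xg : F) = x) (z : AlgebraicClosure G) :
    IsAlgebraic (IntermediateField.adjoin k ({algebraMap G (AlgebraicClosure G) xg} :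
        Set (AlgebraicClosure G))) z := by
  set L := IntermediateField.adjoin k ({algebraMap G (AlgebraicClosure G) xg} :
        Set (AlgebraicClosure G)) with hL
  let e : G →ₐ[k] AlgebraicClosure G := IsScalarTower.toAlgHom k G (AlgebraicClosure G)
  have hxL : e xg ∈ L := IntermediateField.subset_adjoin _ _ rfl
  have hA : ∀ g : G, e g ∈ algebraicClosure L (AlgebraicClosure G) := by
    intro g
    refine all_mem hG (((algebraicClosure L (AlgebraicClosure G)).restrictScalars k).comap e)
      ?_ g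
    intro y hy
    show e y ∈ algebraicClosure L (AlgebraicClosure G)
    rcases hy with hy | hy
    · have h1 : y = xg := Subtype.ext (hy.trans hxg.symm)
      rw [h1]
      exact (algebraicClosure L (AlgebraicClosure G)).algebraMap_mem ⟨e xg, hxL⟩
    · have hy' : (y : F) = ψ := hy
      rw [mem_algebraicClosure_iff']
      apply IsIntegral.of_pow (n := 2) (by norm_num)
      rw [← map_pow]
      have h1 : y ^ 2 = aeval xg β := by
        apply Subtype.ext
        have h2 : ((aeval xg β : G) : F) = aeval (xg : F) β :=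
          (aeval_algebraMap_apply F xg β).symm
        rw [h2, hxg, ← hψ, ← hy']
        rfl
      rw [h1]
      have h3 : e (aeval xg β) = aeval (e xg) β := (aeval_algHom_apply e xg β).symm
      rw [h3]
      have h4 : aeval (e xg) β ∈ L := by
        have h5 : aeval (e xg) β = ((aeval (⟨e xg, hxL⟩ : L) β : L) : AlgebraicClosure G) :=
          aeval_algebraMap_apply (AlgebraicClosure G) (⟨e xg, hxL⟩ : L) β
        rw [h5]
        exact SetLike.coe_mem _
      exact isIntegral_algebraMap (R := L) (x := ⟨_, h4⟩)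
  have h1 : IsAlgebraic (algebraicClosure L (AlgebraicClosure G)) z :=
    alg_mono (A := G) (fun g => ⟨⟨e g, hA g⟩, rfl⟩) (Algebra.IsAlgebraic.isAlgebraic z)
  exact IsAlgebraic.restrictScalars L h1

/-- a homomorphism with values in the range of an embedding -/
theorem lift_range {k G F₁ Ω : Type} [Field k] [Field G] [Algebra k G] [Field F₁] [Algebra k F₁]
    [Field Ω] [Algebra k Ω] (f : G →ₐ[k] Ω) (e : F₁ →ₐ[k] Ω) (h : ∀ g, ∃ y, e y = f g) :
    ∃ i : G →ₐ[k] F₁, e.comp i = f := by
  choose i₀ hi₀ using h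
  have inj : ∀ a b, e a = e b → a = b := fun a b h => e.injective h
  let i : G →+* F₁ :=
    { toFun := i₀
      map_one' := inj _ _ (by rw [hi₀, map_one, map_one])
      map_mul' := fun a b => inj _ _ (by rw [hi₀, map_mul, map_mul, hi₀, hi₀])
      map_zero' := inj _ _ (by rw [hi₀, map_zero, map_zero])
      map_add' := fun a b => inj _ _ (by rw [hi₀, map_add, map_add, hi₀, hi₀]) }
  refine ⟨{ i with commutes' := fun c => inj _ _ ?_ }, AlgHom.ext fun g => hi₀ g⟩
  show e (i₀ (algebraMap k G c)) = e (algebraMap k F₁ c)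
  rw [hi₀, f.commutes, e.commutes]

/-- existence of the embedding -/
theorem ex {k : Type} [Field k] [CharZero k] {W : Affine k} (hW : W.IsElliptic) {F : Type}
    [Field F] [DecidableEq F] [Algebra k F] (P : (WL F W).Point) (hP : Transcendental k (xc P))
    (G : IntermediateField k F) (hG : G = IntermediateField.adjoin k {xc P, ps P})
    [DecidableEq G] (Pg : (WL G W).Point) (hPg : mp G.val Pg = P)
    (F₁ : Type) [Field F₁] [DecidableEq F₁] [Algebra k F₁] (P₁ : (WL F₁ W).Point)
    (hP₁ : Transcendental k (xc P₁)) : ∃ i : G →ₐ[k] F₁, mp i Pg = P₁ := by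
  have : DecidableEq (AlgebraicClosure G) := Classical.decEq _
  have : DecidableEq (AlgebraicClosure F₁) := Classical.decEq _
  let e : G →ₐ[k] AlgebraicClosure G := IsScalarTower.toAlgHom k G (AlgebraicClosure G)
  let e₁ : F₁ →ₐ[k] AlgebraicClosure F₁ := IsScalarTower.toAlgHom k F₁ (AlgebraicClosure F₁)
  have hx : ((xc Pg : G) : F) = xc P := by
    rw [← hPg, xc_mp]
    rfl
  have hp : ((ps Pg : G) : F) = ps P := by
    rw [← hPg, ps_mp]
    rfl
  have hP0 : P ≠ 0 := by
    rintro rfl
    exact hP isAlgebraic_zero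
  have hT : Transcendental k (xc (mp e Pg)) := by
    rw [xc_mp]
    refine (transcendental_algebraMap_iff (R := k) (S := G) (A := AlgebraicClosure G)
        (algebraMap G (AlgebraicClosure G)).injective).mpr ?_
    refine (transcendental_algebraMap_iff (R := k) (S := G) (A := F)
        (algebraMap G F).injective).mp ?_
    show Transcendental k ((xc Pg : G) : F)
    rw [hx]
    exact hP
  have hT₁ : Transcendental k (xc (mp e₁ P₁)) := by
    rw [xc_mp]
    exact (transcendental_algebraMap_iff (R := k) (S := F₁) (A := AlgebraicClosure F₁)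
        (algebraMap F₁ (AlgebraicClosure F₁)).injective).mpr hP₁
  have hal : ∀ z : AlgebraicClosure G, IsAlgebraic (IntermediateField.adjoin k
      ({xc (mp e Pg)} : Set (AlgebraicClosure G))) z := by
    intro z
    rw [xc_mp]
    exact alg_adj G hG (β := Pool.Agent.Helper35.TG.RGEN.bp W)
      (by rw [bp_aeval, ps_sq P hP0]) (xc Pg) hx z
  obtain ⟨j, hj⟩ := Pool.Agent.Helper66.TG.EMB.t k W hW (AlgebraicClosure G)
    (AlgebraicClosure F₁) (mp e Pg) (mp e₁ P₁) hT hT₁ hal
  have hj1 : j (e (xc Pg)) = e₁ (xc P₁) := by rw [← xc_mp, ← xc_mp, hj, xc_mp]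
  have hj2 : j (e (ps Pg)) = e₁ (ps P₁) := by rw [← ps_mp, ← ps_mp, hj, ps_mp]
  have hr : ∀ g : G, ∃ y, e₁ y = (j.comp e) g := by
    intro g
    have h1 := all_mem hG (e₁.fieldRange.comap (j.comp e)) (by
      intro y hy
      show (j.comp e) y ∈ e₁.fieldRange
      rcases hy with hy | hy
      · have h1 : y = xc Pg := Subtype.ext (hy.trans hx.symm)
        exact ⟨xc P₁, by rw [h1]; exact hj1.symm⟩
      · have hy' : (y : F) = ps P := hy
        have h1 : y = ps Pg := Subtype.ext (hy'.trans hp.symm)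
        exact ⟨ps P₁, by rw [h1]; exact hj2.symm⟩) g
    exact h1
  obtain ⟨i, hi⟩ := lift_range (j.comp e) e₁ hr
  refine ⟨i, Affine.Point.map_injective e₁ ?_⟩
  show Affine.Point.map e₁ (Affine.Point.map i Pg) = Affine.Point.map e₁ P₁
  rw [Affine.Point.map_map, hi, ← Affine.Point.map_map]
  exact hj

/-- uniqueness of the embedding -/
theorem un {k : Type} [Field k] {W : Affine k} {F : Type}
    [Field F] [DecidableEq F] [Algebra k F] (P : (WL F W).Point)
    (G : IntermediateField k F) (hG : G = IntermediateField.adjoin k {xc P, ps P})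
    [DecidableEq G] (Pg : (WL G W).Point) (hPg : mp G.val Pg = P)
    (F₁ : Type) [Field F₁] [DecidableEq F₁] [Algebra k F₁] (i i' : G →ₐ[k] F₁)
    (h : mp i Pg = mp i' Pg) : i = i' := by
  have hx : G.val (xc Pg) = xc P := by rw [← xc_mp, hPg]
  have hp : G.val (ps Pg) = ps P := by rw [← ps_mp, hPg]
  have h1 : i (xc Pg) = i' (xc Pg) := by rw [← xc_mp, h, xc_mp]
  have h2 : i (ps Pg) = i' (ps Pg) := by rw [← ps_mp, h, ps_mp]
  refine IntermediateField.algHom_ext_of_eq_adjoin k hG ?_
  intro y hy
  rcases hy with hy | hy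
  · have h3 : (⟨y, hG.ge (IntermediateField.subset_adjoin k _ (Or.inl hy))⟩ : G) = xc Pg :=
      Subtype.ext (hy.trans hx.symm)
    rw [h3]
    exact h1
  · have hy' : y = ps P := hy
    have h3 : (⟨y, hG.ge (IntermediateField.subset_adjoin k _ (Or.inr hy))⟩ : G) = ps Pg :=
      Subtype.ext (hy'.trans hp.symm)
    rw [h3]
    exact h2

/-- **GMX** -/
theorem t : Pool.Agent.Helper19.TGX.GMX := by
  intro k _ _ W W' hW F _ _ _ P S hP hS
  obtain ⟨G, hG⟩ : ∃ G : IntermediateField k F, G = IntermediateField.adjoin k {xc P, ps P} :=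
    ⟨_, rfl⟩
  rw [← hG] at hS
  have : DecidableEq G := Classical.decEq _
  have hIP : IP (G : Set F) P := by
    rw [hG]
    exact Or.inr ⟨IntermediateField.subset_adjoin _ _ (Or.inl rfl),
      IntermediateField.subset_adjoin _ _ (Or.inr rfl)⟩
  obtain ⟨Pg, hPg⟩ := Pool.Agent.Helper45.TG.IPN.exists_map G hIP
  obtain ⟨Sg, hSg⟩ := Pool.Agent.Helper45.TG.IPN.exists_map G hS
  have hPg' : mp G.val Pg = P := hPg
  have hSg' : mp G.val Sg = S := hSg
  have hex := ex hW P hP G hG Pg hPg'
  have hun := un P G hG Pg hPg'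
  let f : ∀ (F₁ : Type) [Field F₁] [DecidableEq F₁] [Algebra k F₁], (WL F₁ W).Point →
      (WL F₁ W').Point := fun F₁ _ _ _ P₁ =>
    open Classical in
    if h : Transcendental k (xc P₁) then mp (Classical.choose (hex F₁ P₁ h)) Sg else 0
  have hf : ∀ (F₁ : Type) [Field F₁] [DecidableEq F₁] [Algebra k F₁] (P₁ : (WL F₁ W).Point)
      (_ : Transcendental k (xc P₁)) (i : G →ₐ[k] F₁), mp i Pg = P₁ →
      f F₁ P₁ = mp i Sg := by
    intro F₁ _ _ _ P₁ h i hi
    have h1 := Classical.choose_spec (hex F₁ P₁ h)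
    have h2 : Classical.choose (hex F₁ P₁ h) = i := hun F₁ _ _ (h1.trans hi.symm)
    have h3 : f F₁ P₁ = mp (Classical.choose (hex F₁ P₁ h)) Sg := dif_pos h
    rw [h3, h2]
  refine ⟨⟨f, ?_⟩, ?_⟩
  · intro F₁ F₂ _ _ _ _ _ _ j P₁ h
    obtain ⟨i, hi⟩ := hex F₁ P₁ h
    have h2 : Transcendental k (xc (mp j P₁)) := by
      rw [xc_mp]
      intro h3
      exact h ((isAlgebraic_algHom_iff j j.injective).mp h3)
    rw [hf F₁ P₁ h i hi, hf F₂ (mp j P₁) h2 (j.comp i) (by
      rw [← hi]
      exact (Affine.Point.map_map i j Pg).symm)]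
    exact (Affine.Point.map_map i j Sg).symm
  · exact (hf F P hP _ hPg').trans hSg'

end

end Pool.Agent.Helper33.TGX.GMX
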